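import Mathlib

/-!
Binomial coefficients.
-/

set_option autoImplicit false

namespace Pool.Agent.T2h42.Uni

open Finset

theorem pow_le_choose' (d : ℕ) : ∀ n : ℕ, d ≤ n → n ^ d ≤ d ^ d * n.choose d := by
  induction d with
  | zero => intro n _; simp
  | succ d ih =>
    intro n hn
    obtain ⟨n, rfl⟩ : ∃ m, n = m + 1 := ⟨n - 1, by omega⟩
    have hn' : d ≤ n := by omega
    have h1 := ih n hn'
    have h2 : (n + 1) * n.choose d = (n + 1).choose (d + 1) * (d + 1) := Nat.add_one_mul_choose_eq n d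
    -- `(n+1)^d ≤ (d+1)^d * choose n d`
    have h3 : (n + 1) ^ d ≤ (d + 1) ^ d * n.choose d := by
      rcases Nat.eq_zero_or_pos d with rfl | hd
      · simp
      have h4 : ((n + 1) * d) ^ d ≤ ((d + 1) * n) ^ d :=
        Nat.pow_le_pow_left (by nlinarith) d
      rw [mul_pow, mul_pow] at h4
      have h5 : (d + 1) ^ d * n ^ d ≤ (d + 1) ^ d * (d ^ d * n.choose d) :=
        Nat.mul_le_mul_left _ h1
      have h6 : (n + 1) ^ d * d ^ d ≤ ((d + 1) ^ d * n.choose d) * d ^ d := by
        calc (n + 1) ^ d * d ^ d ≤ (d + 1) ^ d * n ^ d := h4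
          _ ≤ (d + 1) ^ d * (d ^ d * n.choose d) := h5
          _ = _ := by ring
      exact Nat.le_of_mul_le_mul_right h6 (Nat.pow_pos hd)
    calc (n + 1) ^ (d + 1) = (n + 1) ^ d * (n + 1) := pow_succ _ _
      _ ≤ ((d + 1) ^ d * n.choose d) * (n + 1) := Nat.mul_le_mul_right _ h3
      _ = (d + 1) ^ d * ((n + 1) * n.choose d) := by ring
      _ = (d + 1) ^ d * ((n + 1).choose (d + 1) * (d + 1)) := by rw [h2]
      _ = (d + 1) ^ (d + 1) * (n + 1).choose (d + 1) := by rw [pow_succ]; ring

/-- `C(n, j) ≥ (n / d)^d` for `d = min (j, n - j)` -/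
theorem log_choose_ge {n j : ℕ} (hj : j ≤ n) (hd : 1 ≤ min j (n - j)) :
    ((min j (n - j) : ℕ) : ℝ) * Real.log ((n : ℝ) / ((min j (n - j) : ℕ) : ℝ)) ≤
      Real.log (n.choose j) := by
  set d := min j (n - j) with hdd
  have hdn : d ≤ n := (min_le_left _ _).trans hj
  have hch : n.choose j = n.choose d := by
    rcases min_choice j (n - j) with h | h
    · rw [hdd, h]
    · rw [hdd, h, Nat.choose_symm hj]
  have h1 := pow_le_choose' d n hdn
  have hd0 : (0 : ℝ) < d := by exact_mod_cast hd
  have hn0 : (0 : ℝ) < n := by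
    have : 0 < n := by omega
    exact_mod_cast this
  have hc0 : (0 : ℝ) < n.choose d := by exact_mod_cast Nat.choose_pos hdn
  have h2 : ((n : ℝ) / d) ^ d ≤ n.choose d := by
    rw [div_pow, div_le_iff₀ (by positivity)]
    have : ((n ^ d : ℕ) : ℝ) ≤ ((d ^ d * n.choose d : ℕ) : ℝ) := Nat.cast_le.2 h1
    push_cast at this
    linarith
  rw [hch, ← Real.log_pow]
  exact Real.log_le_log (by positivity) h2

theorem choose_step {n j : ℕ} (h1 : 1 ≤ j) (h2 : j + 1 ≤ n) :
    n.choose j * (j * (n - j)) = n * (n - 1) * (n - 2).choose (j - 1) := by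
  obtain ⟨j, rfl⟩ : ∃ i, j = i + 1 := ⟨j - 1, by omega⟩
  obtain ⟨n, rfl⟩ : ∃ m, n = m + 2 := ⟨n - 2, by omega⟩
  have e1 : (n + 1 + 1) * (n + 1).choose j = (n + 1 + 1).choose (j + 1) * (j + 1) :=
    Nat.add_one_mul_choose_eq (n + 1) j
  have e2 : n.choose j * (n + 1) = (n + 1).choose j * (n + 1 - j) := Nat.choose_mul_succ_eq n j
  have e3 : n + 2 - (j + 1) = n + 1 - j := by omega
  have e4 : n + 2 - 1 = n + 1 := by omega
  have e5 : n + 2 - 2 = n := by omega
  have e6 : j + 1 - 1 = j := by omega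
  rw [e3, e4, e5, e6]
  calc (n + 2).choose (j + 1) * ((j + 1) * (n + 1 - j))
      = ((n + 1 + 1).choose (j + 1) * (j + 1)) * (n + 1 - j) := by ring
    _ = ((n + 1 + 1) * (n + 1).choose j) * (n + 1 - j) := by rw [← e1]
    _ = (n + 2) * ((n + 1).choose j * (n + 1 - j)) := by ring
    _ = (n + 2) * (n.choose j * (n + 1)) := by rw [← e2]
    _ = _ := by ring

/-- dropping `t` pairs -/
theorem choose_drop {n j : ℕ} (hj : j ≤ n) (t : ℕ) :
    2 * t ≤ min j (n - j) + 1 → n.choose j * (min j (n - j)) ^ t ≤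
      (4 * n) ^ t * (n - 2 * t).choose (j - t) := by
  set d := min j (n - j) with hd
  have hd1 : d ≤ j := min_le_left _ _
  have hd2 : d ≤ n - j := min_le_right _ _
  induction t with
  | zero => intro _; simp
  | succ t ih =>
    intro ht
    have ih' := ih (by omega)
    have hs := choose_step (n := n - 2 * t) (j := j - t) (by omega) (by omega)
    have e1 : n - 2 * t - 2 = n - 2 * (t + 1) := by omega
    have e2 : j - t - 1 = j - (t + 1) := by omega
    rw [e1, e2] at hs
    set n' := n - 2 * t with hn'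
    set u := j - t with hu
    set v := n' - u with hv
    have huv : n' = u + v := by omega
    have hu1 : d + 1 ≤ 2 * u := by omega
    have hv1 : d + 1 ≤ 2 * v := by omega
    have hkey : n' * (n' - 1) * d ≤ 4 * n * (u * v) := by
      have h1 : n' * d ≤ 4 * (u * v) := by
        rw [huv]
        rcases le_total u v with h | h
        · nlinarith
        · nlinarith
      calc n' * (n' - 1) * d = (n' - 1) * (n' * d) := by ring
        _ ≤ n * (4 * (u * v)) := Nat.mul_le_mul (by omega) h1
        _ = _ := by ring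
    have huvpos : 0 < u * v := Nat.mul_pos (by omega) (by omega)
    have hstep : n'.choose u * d ≤ 4 * n * (n - 2 * (t + 1)).choose (j - (t + 1)) := by
      have h1 : (n'.choose u * d) * (u * v) ≤
          (4 * n * (n - 2 * (t + 1)).choose (j - (t + 1))) * (u * v) := by
        calc (n'.choose u * d) * (u * v) = (n'.choose u * (u * v)) * d := by ring
          _ = (n' * (n' - 1) * (n - 2 * (t + 1)).choose (j - (t + 1))) * d := by rw [hs]
          _ = (n' * (n' - 1) * d) * (n - 2 * (t + 1)).choose (j - (t + 1)) := by ring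
          _ ≤ (4 * n * (u * v)) * (n - 2 * (t + 1)).choose (j - (t + 1)) :=
            Nat.mul_le_mul_right _ hkey
          _ = _ := by ring
      exact Nat.le_of_mul_le_mul_right h1 huvpos
    calc n.choose j * d ^ (t + 1) = (n.choose j * d ^ t) * d := by rw [pow_succ]; ring
      _ ≤ ((4 * n) ^ t * n'.choose u) * d := Nat.mul_le_mul_right _ ih'
      _ = (4 * n) ^ t * (n'.choose u * d) := by ring
      _ ≤ (4 * n) ^ t * (4 * n * (n - 2 * (t + 1)).choose (j - (t + 1))) :=
        Nat.mul_le_mul_left _ hstep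
      _ = _ := by rw [pow_succ]; ring

/-- the logarithmic form -/
theorem log_drop {n j t : ℕ} (hj : j ≤ n) (hd : 1 ≤ min j (n - j))
    (ht : 2 * t ≤ min j (n - j) + 1) :
    Real.log (n.choose j) - t * (Real.log 4 +
      Real.log ((n : ℝ) / ((min j (n - j) : ℕ) : ℝ))) ≤
      Real.log ((n - 2 * t).choose (j - t)) := by
  have h1 := choose_drop hj t ht
  set d := min j (n - j) with hdd
  have hd1 : d ≤ j := min_le_left _ _
  have hd2 : d ≤ n - j := min_le_right _ _
  have hd0 : (0 : ℝ) < d := by exact_mod_cast hd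
  have hn0 : (0 : ℝ) < n := by
    have : 0 < n := by omega
    exact_mod_cast this
  have hc0 : (0 : ℝ) < n.choose j := by exact_mod_cast Nat.choose_pos hj
  have hc1 : (0 : ℝ) < (n - 2 * t).choose (j - t) := by
    exact_mod_cast Nat.choose_pos (by omega)
  have h2 : ((n.choose j * d ^ t : ℕ) : ℝ) ≤ (((4 * n) ^ t * (n - 2 * t).choose (j - t) : ℕ) : ℝ) :=
    Nat.cast_le.2 h1
  push_cast at h2
  have h3 := Real.log_le_log (by positivity) h2
  rw [Real.log_mul hc0.ne' (by positivity), Real.log_mul (by positivity) hc1.ne',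
    Real.log_pow, Real.log_pow, Real.log_mul (by norm_num) hn0.ne'] at h3
  rw [Real.log_div hn0.ne' hd0.ne']
  nlinarith

end Pool.Agent.T2h42.Uni
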