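import Pool.Agent.T2h42.Uni.Main

/-!
Products of prescribed numbers of elements of sets of pairwise coprime squarefree integers: the
final form.
-/

set_option autoImplicit false

namespace Pool.Agent.T2h42.Uni

open Finset
open scoped Classical Pointwise

theorem mem_UA {κ : Type} [Fintype κ] {W : κ → Finset ℕ} {j : κ → ℕ} {z : ℕ} :
    z ∈ UA W j ↔ ∃ S : κ → Finset ℕ, (∀ c, S c ⊆ W c ∧ (S c).card = j c) ∧
      ∏ c, ∏ a ∈ S c, a = z := by
  rw [UA, Finset.mem_image]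
  constructor
  · rintro ⟨S, hS, rfl⟩
    exact ⟨S, mem_Fam.1 hS, rfl⟩
  · rintro ⟨S, hS, rfl⟩
    exact ⟨S, mem_Fam.2 hS, rfl⟩

theorem final (k : ℕ) (hk : 1 ≤ k) (ε : ℝ) (hε : 0 < ε) :
    ∃ c : ℝ, 0 < c ∧ ∀ (κ : Type) [Fintype κ] (W : κ → Finset ℕ) (j : κ → ℕ), Cop W →
      (∀ i, j i ≤ (W i).card) →
      c * ((UA W j).card : ℝ) ^ ((k : ℝ) - ε) ≤
          (((Fintype.piFinset fun _ : Fin k => UA W j).image fun f => ∏ i, f i).card : ℝ) ∨
      ∀ B : Finset ℤ, B.Nonempty →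
        c * ((UA W j).card : ℝ) ^ ((k : ℝ) - ε) * (B.card : ℝ) ^ (1 - ε) ≤
          ((((Fintype.piFinset fun _ : Fin k => UA W j) ×ˢ B).image
            fun x => (∑ i, (x.1 i : ℤ)) + x.2).card : ℝ) := by
  obtain ⟨ε', hε0, hε1, h⟩ := Lat.to_final k hk ε hε
  obtain ⟨C, hC0, hC⟩ := dich_uni k ε' hε0 hε1
  obtain ⟨c, hc, h2⟩ := h C hC0
  refine ⟨c, hc, fun κ _ W j hW hj => ?_⟩
  apply h2
  · rw [← Finset.card_pos, card_UA hW j, card_Fam]
    exact Finset.prod_pos fun c _ => Nat.choose_pos (hj c)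
  · exact hC κ W j hW hj

end Pool.Agent.T2h42.Uni
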