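import Pool.Agent.T2h42.Uni.Sum

/-!
Products of prescribed numbers of elements of sets of pairwise coprime squarefree integers: the
dichotomy.
-/

set_option autoImplicit false
set_option linter.unusedSectionVars false

namespace Pool.Agent.T2h42.Uni

open Finset
open Pool.Agent.TH83.SQ (dil)
open Pool.Agent.T2h42.GD (dm Tog dilates)
open scoped Classical Pointwise

variable {κ : Type} [Fintype κ]

theorem log_card_Fam {W : κ → Finset ℕ} {j : κ → ℕ} (hj : ∀ c, j c ≤ (W c).card) :
    Real.log (Fam W j).card = ∑ c, Real.log ((W c).card.choose (j c)) := by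
  rw [card_Fam]
  push_cast
  rw [Real.log_prod]
  intro c _
  exact_mod_cast (Nat.choose_pos (hj c)).ne'

theorem dd_le {W : κ → Finset ℕ} {j : κ → ℕ} (hj : ∀ c, j c ≤ (W c).card) (c : κ) :
    dd W j c ≤ j c ∧ 2 * dd W j c ≤ (W c).card := by
  have := hj c
  unfold dd
  omega

theorem sum_tt (Y : Finset (κ × ℕ)) : ∑ c, tt Y c = Y.card := by
  unfold tt
  exact (Finset.card_eq_sum_card_fiberwise (f := fun y : κ × ℕ => y.1) (t := univ)
    (fun _ _ => Finset.mem_coe.2 (Finset.mem_univ _))).symm

/-- the selection of the toggles -/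
theorem exists_toggles {W : κ → Finset ℕ} {j : κ → ℕ} (hj : ∀ c, j c ≤ (W c).card) {η L : ℝ}
    (hη : 0 < η) (hL : L = Real.log (Fam W j).card) (hD : η * L < ∑ c, (dd W j c : ℝ)) {T : ℕ}
    (hT : (T : ℝ) ≤ η * L / 4) :
    ∃ (u : κ → ℕ) (Y : Finset (κ × ℕ)), (∀ c, 2 * u c ≤ (W c).card) ∧ (∀ c, u c ≤ dd W j c) ∧
      (∀ y ∈ Y, y.2 < u y.1) ∧ Y.card = T ∧ (∀ c, tt Y c ≤ u c) ∧
      L - T * (Real.log 4 + 2 / η) ≤
        ∑ c, Real.log (((W c).card - 2 * tt Y c).choose (j c - tt Y c)) := by
  set d : κ → ℕ := dd W j with hd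
  set G : Finset κ := univ.filter fun c => 1 ≤ d c ∧
    Real.log (((W c).card : ℝ) / (d c : ℝ)) ≤ 2 / η with hG
  set u : κ → ℕ := fun c => if c ∈ G then (d c + 1) / 2 else 0 with hu
  have hdj := fun c => (dd_le hj c).1
  have hdn := fun c => (dd_le hj c).2
  have hGd : ∀ c ∈ G, 1 ≤ d c := fun c hc => (Finset.mem_filter.1 hc).2.1
  have hud : ∀ c, u c ≤ d c := by
    intro c
    simp only [hu]
    split_ifs with h
    · have := hGd c h; omega
    · exact Nat.zero_le _
  -- the mass of the bad groups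
  have hlogs : ∑ c, Real.log ((W c).card.choose (j c)) = L := by rw [hL, log_card_Fam hj]
  have hbad : ∑ c ∈ univ.filter (fun c => c ∉ G), (d c : ℝ) ≤ η * L / 2 := by
    have h1 : ∀ c ∈ univ.filter (fun c => c ∉ G), (d c : ℝ) * (2 / η) ≤
        Real.log ((W c).card.choose (j c)) := by
      intro c hc
      have hcG := (Finset.mem_filter.1 hc).2
      by_cases h0 : 1 ≤ d c
      · have h2 : 2 / η < Real.log (((W c).card : ℝ) / (d c : ℝ)) := by
          by_contra hcon
          exact hcG (Finset.mem_filter.2 ⟨Finset.mem_univ _, h0, not_lt.1 hcon⟩)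
        have h3 := log_choose_ge (hj c) (show 1 ≤ min (j c) ((W c).card - j c) from h0)
        have h4 : (d c : ℝ) * (2 / η) ≤ (d c : ℝ) * Real.log (((W c).card : ℝ) / (d c : ℝ)) :=
          mul_le_mul_of_nonneg_left h2.le (Nat.cast_nonneg _)
        exact h4.trans h3
      · have h2 : d c = 0 := by omega
        rw [h2]
        simp only [Nat.cast_zero, zero_mul]
        exact Real.log_natCast_nonneg _
    have h2 := Finset.sum_le_sum h1
    rw [← Finset.sum_mul] at h2
    have h3 : ∑ c ∈ univ.filter (fun c => c ∉ G), Real.log ((W c).card.choose (j c)) ≤ L := by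
      rw [← hlogs]
      exact Finset.sum_le_sum_of_subset_of_nonneg (Finset.filter_subset _ _)
        fun c _ _ => Real.log_natCast_nonneg _
    have h4 := h2.trans h3
    rw [mul_div_assoc', div_le_iff₀ hη] at h4
    linarith
  have hGsum : η * L / 2 ≤ ∑ c ∈ G, (d c : ℝ) := by
    have h1 : ∑ c, (d c : ℝ) = ∑ c ∈ univ.filter (fun c => c ∈ G), (d c : ℝ) +
        ∑ c ∈ univ.filter (fun c => c ∉ G), (d c : ℝ) :=
      (Finset.sum_filter_add_sum_filter_not _ _ _).symm
    have h2 : univ.filter (fun c => c ∈ G) = G := by ext c; simp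
    rw [h2] at h1
    rw [h1] at hD
    linarith
  have husum : η * L / 4 ≤ ((∑ c, u c : ℕ) : ℝ) := by
    have h1 : ∑ c ∈ G, (d c : ℝ) ≤ 2 * ((∑ c, u c : ℕ) : ℝ) := by
      have h2 : ∑ c ∈ G, d c ≤ 2 * ∑ c, u c := by
        rw [Finset.mul_sum]
        calc ∑ c ∈ G, d c ≤ ∑ c ∈ G, 2 * u c := by
              apply Finset.sum_le_sum
              intro c hc
              simp only [hu, if_pos hc]
              omega
          _ ≤ _ := Finset.sum_le_sum_of_subset (Finset.subset_univ _)
      have h3 : ((∑ c ∈ G, d c : ℕ) : ℝ) ≤ ((2 * ∑ c, u c : ℕ) : ℝ) := Nat.cast_le.2 h2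
      push_cast at h3 ⊢
      exact h3
    linarith
  -- the pairs
  set Z : Finset (κ × ℕ) := (univ.sigma fun c : κ => Finset.range (u c)).image
    fun z => (z.1, z.2) with hZ
  have hZc : Z.card = ∑ c, u c := by
    rw [hZ, Finset.card_image_of_injective, Finset.card_sigma]
    · simp
    · rintro ⟨c, i⟩ ⟨c', i'⟩ h
      simp only [Prod.mk.injEq] at h
      obtain ⟨rfl, rfl⟩ := h
      rfl
  have hZm : ∀ y ∈ Z, y.2 < u y.1 := by
    intro y hy
    obtain ⟨⟨c, i⟩, h1, rfl⟩ := Finset.mem_image.1 hy
    exact Finset.mem_range.1 (Finset.mem_sigma.1 h1).2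
  have hTZ : T ≤ Z.card := by
    rw [hZc]
    have : (T : ℝ) ≤ ((∑ c, u c : ℕ) : ℝ) := hT.trans husum
    exact_mod_cast this
  obtain ⟨Y, hYZ, hYc⟩ := Finset.exists_subset_card_eq hTZ
  have hYm : ∀ y ∈ Y, y.2 < u y.1 := fun y hy => hZm y (hYZ hy)
  have htt : ∀ c, tt Y c ≤ u c := by
    intro c
    unfold tt
    have h1 : (Y.filter fun y => y.1 = c).card ≤ (Finset.range (u c)).card := by
      apply Finset.card_le_card_of_injOn (fun y => y.2)
      · intro y hy
        obtain ⟨h1, h2⟩ := Finset.mem_filter.1 (Finset.mem_coe.1 hy)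
        rw [Finset.mem_coe, Finset.mem_range]
        have := hYm y h1
        rwa [h2] at this
      · rintro ⟨c1, i⟩ hy ⟨c2, i'⟩ hy' h
        obtain ⟨_, h2⟩ := Finset.mem_filter.1 (Finset.mem_coe.1 hy)
        obtain ⟨_, h3⟩ := Finset.mem_filter.1 (Finset.mem_coe.1 hy')
        simp only at h h2 h3
        rw [h, h2, h3]
    rwa [Finset.card_range] at h1
  refine ⟨u, Y, ?_, ?_, hYm, hYc, htt, ?_⟩
  · intro c
    have h1 := hud c
    have h2 := hdn c
    have h3 : d c = dd W j c := rfl
    omega
  · exact hud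
  · have hstep : ∀ c, Real.log ((W c).card.choose (j c)) - tt Y c * (Real.log 4 + 2 / η) ≤
        Real.log (((W c).card - 2 * tt Y c).choose (j c - tt Y c)) := by
      intro c
      rcases Nat.eq_zero_or_pos (tt Y c) with h0 | h0
      · rw [h0]
        simp
      · have hcG : c ∈ G := by
          by_contra hcG
          have h1 := htt c
          simp only [hu, if_neg hcG] at h1
          omega
        have h1 := hGd c hcG
        have h2 : 2 * tt Y c ≤ min (j c) ((W c).card - j c) + 1 := by
          have h3 := htt c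
          simp only [hu, if_pos hcG] at h3
          have h4 : d c = min (j c) ((W c).card - j c) := rfl
          omega
        have h3 := log_drop (hj c) (show 1 ≤ min (j c) ((W c).card - j c) from h1) h2
        refine le_trans ?_ h3
        have h4 := (Finset.mem_filter.1 hcG).2.2
        have h5 : (tt Y c : ℝ) * (Real.log 4 + Real.log (((W c).card : ℝ) / (d c : ℝ))) ≤
            tt Y c * (Real.log 4 + 2 / η) :=
          mul_le_mul_of_nonneg_left (by linarith) (Nat.cast_nonneg _)
        have h6 : (min (j c) ((W c).card - j c) : ℕ) = d c := rfl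
        rw [h6]
        linarith
    have h1 := Finset.sum_le_sum fun c (_ : c ∈ (univ : Finset κ)) => hstep c
    rw [Finset.sum_sub_distrib, hlogs, ← Finset.sum_mul] at h1
    have h2 : ∑ c, (tt Y c : ℝ) = T := by
      have := sum_tt Y
      rw [hYc] at this
      exact_mod_cast this
    rwa [h2] at h1

/-- the dichotomy -/
theorem dich_uni (k : ℕ) (ε : ℝ) (hε : 0 < ε) (hε1 : ε < 1) :
    ∃ C : ℝ, 0 ≤ C ∧ ∀ (κ : Type) [Fintype κ] (W : κ → Finset ℕ) (j : κ → ℕ), Cop W →
      (∀ c, j c ≤ (W c).card) →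
      ((k - ε) * Real.log (UA W j).card - C ≤
        Real.log (((Fintype.piFinset fun _ : Fin k => UA W j).image fun f => ∏ i, f i).card : ℝ) ∨
      ∀ B : Finset ℤ, B.Nonempty →
        (1 - ε) * (Real.log (UA W j).card + Real.log B.card) - C ≤
          Real.log ((((UA W j).image fun a : ℕ => (a : ℤ)) + B).card : ℝ)) := by
  set η : ℝ := ε / (k ^ 2 + 1) with hη
  have hη0 : 0 < η := by positivity
  have hl2 : 0 < Real.log 2 := Real.log_pos (by norm_num)
  have hl2' : Real.log 2 ≤ 1 := by
    have := Real.log_two_lt_d9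
    linarith
  set Γ : ℝ := Real.log 4 + 2 / η with hΓ
  have hΓ0 : 0 < Γ := by
    have : 0 < Real.log 4 := Real.log_pos (by norm_num)
    positivity
  set θ : ℝ := min (η / 8) (ε / 4 / Γ) with hθ
  have hθ0 : 0 < θ := lt_min (by positivity) (by positivity)
  have hθ1 : θ ≤ η / 8 := min_le_left _ _
  have hθ2 : θ * Γ ≤ ε / 4 := by
    have : θ ≤ ε / 4 / Γ := min_le_right _ _
    rwa [le_div_iff₀ hΓ0] at this
  obtain ⟨C, hC⟩ := dilates (ε / 2) (θ / (1 + 1 / ε)) (by positivity) (by positivity)
  set L₀ : ℝ := max (8 / η) (4 * Γ / ε) with hL₀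
  have hL₀0 : 0 < L₀ := lt_of_lt_of_le (by positivity) (le_max_left _ _)
  refine ⟨max (max C 0) (k * L₀), le_max_of_le_left (le_max_right _ _), ?_⟩
  intro κ _ W j hW hj
  set A := UA W j with hA
  have hAc : A.card = (Fam W j).card := card_UA hW j
  set L := Real.log A.card with hLd
  have hL0 : 0 ≤ L := Real.log_natCast_nonneg _
  have hFpos : 0 < (Fam W j).card := by
    rw [card_Fam]
    exact Finset.prod_pos fun c _ => Nat.choose_pos (hj c)
  have hLF : L = Real.log (Fam W j).card := by rw [hLd, hAc]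
  have hAne : A.Nonempty := by rw [← Finset.card_pos, hAc]; exact hFpos
  have hm1 : C ≤ max (max C 0) (k * L₀) := (le_max_left _ _).trans (le_max_left _ _)
  have hm2 : 0 ≤ max (max C 0) (k * L₀) := (le_max_right C 0).trans (le_max_left _ _)
  have hm3 : k * L₀ ≤ max (max C 0) (k * L₀) := le_max_right _ _
  have hprod0 : 0 ≤ Real.log (((Fintype.piFinset fun _ : Fin k => A).image
    fun f => ∏ i, f i).card : ℝ) := Real.log_natCast_nonneg _
  by_cases hLL : L < L₀
  · left
    have h1 : (k : ℝ) * L ≤ k * L₀ := mul_le_mul_of_nonneg_left hLL.le (Nat.cast_nonneg _)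
    have h2 : 0 ≤ ε * L := by positivity
    nlinarith
  push Not at hLL
  by_cases hD : ∑ c, (dd W j c : ℝ) ≤ η * L
  · -- many products
    left
    have h1 := prods_card hW hj k
    have hP : 0 < ((Fintype.piFinset fun _ : Fin k => UA W j).image fun f => ∏ i, f i).card :=
      Lat.prods_pos hAne k
    have h2 : ((Fam W j).card : ℝ) ^ k ≤
        (((Fintype.piFinset fun _ : Fin k => UA W j).image fun f => ∏ i, f i).card : ℝ) *
          2 ^ (k * (k * ∑ c, dd W j c)) := by exact_mod_cast h1
    have hF' : (0 : ℝ) < (Fam W j).card := by exact_mod_cast hFpos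
    have hP' : (0 : ℝ) < (((Fintype.piFinset fun _ : Fin k => UA W j).image
      fun f => ∏ i, f i).card : ℝ) := by exact_mod_cast hP
    have h3 := Real.log_le_log (by positivity) h2
    rw [Real.log_pow, Real.log_mul hP'.ne' (by positivity), Real.log_pow, ← hLF] at h3
    push_cast at h3
    have h4 : (k : ℝ) * (k * ∑ c, (dd W j c : ℝ)) * Real.log 2 ≤ ε * L := by
      have h5 : (k : ℝ) * (k * ∑ c, (dd W j c : ℝ)) ≤ (k : ℝ) * (k * (η * L)) := by
        have hk0 : (0 : ℝ) ≤ k := Nat.cast_nonneg _
        exact mul_le_mul_of_nonneg_left (mul_le_mul_of_nonneg_left hD hk0) hk0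
      have h6 : (k : ℝ) * (k * (η * L)) ≤ ε * L := by
        have h7 : (k : ℝ) ^ 2 * η ≤ ε := by
          rw [hη, mul_div_assoc', div_le_iff₀ (by positivity)]
          nlinarith
        nlinarith
      have h8 : 0 ≤ (k : ℝ) * (k * (η * L)) := by positivity
      calc (k : ℝ) * (k * ∑ c, (dd W j c : ℝ)) * Real.log 2 ≤
          (k : ℝ) * (k * (η * L)) * Real.log 2 := mul_le_mul_of_nonneg_right h5 hl2.le
        _ ≤ (k : ℝ) * (k * (η * L)) * 1 := mul_le_mul_of_nonneg_left hl2' h8
        _ ≤ _ := by rw [mul_one]; exact h6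
    have h9 : (k : ℝ) * L ≤ Real.log (((Fintype.piFinset fun _ : Fin k => A).image
        fun f => ∏ i, f i).card : ℝ) + (k : ℝ) * (k * ∑ c, (dd W j c : ℝ)) * Real.log 2 := by
      exact h3
    linarith
  · -- many toggles
    right
    push Not at hD
    intro B hB
    have hlB : 0 ≤ Real.log B.card := Real.log_natCast_nonneg _
    set T := ⌈θ * L⌉₊ with hT
    have hT1 : θ * L ≤ T := Nat.le_ceil _
    have hT2 : (T : ℝ) ≤ θ * L + 1 := (Nat.ceil_lt_add_one (by positivity)).le
    have hLη : 8 / η ≤ L := (le_max_left _ _).trans hLL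
    have hLΓ : 4 * Γ / ε ≤ L := (le_max_right _ _).trans hLL
    have hT3 : (T : ℝ) ≤ η * L / 4 := by
      rw [div_le_iff₀ hη0] at hLη
      have : θ * L ≤ η / 8 * L := mul_le_mul_of_nonneg_right hθ1 hL0
      linarith
    obtain ⟨u, Y, hu1, hu2, hY1, hY2, hY3, hY4⟩ := exists_toggles hj hη0 hLF hD hT3
    obtain ⟨a, b, hP⟩ := exists_Pairs W u hu1
    have htj : ∀ c, tt Y c ≤ j c := fun c => ((hY3 c).trans (hu2 c)).trans (dd_le hj c).1
    set V : κ → Finset ℕ := fun c => W c \ used a b Y c with hV
    set i : κ → ℕ := fun c => j c - tt Y c with hi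
    have hVc : ∀ c, (V c).card = (W c).card - 2 * tt Y c := by
      intro c
      rw [hV]
      simp only
      rw [Finset.card_sdiff_of_subset (used_sub hP hY1 c), used_card hP hY1 c]
    have hiV : ∀ c, i c ≤ (V c).card := by
      intro c
      rw [hVc]
      have h1 := hu1 c
      have h2 := hY3 c
      have h3 := hj c
      have h4 : u c ≤ min (j c) ((W c).card - j c) := hu2 c
      simp only [hi]
      omega
    have hVW : ∀ c, V c ⊆ W c := fun c => Finset.sdiff_subset
    have hVCop : Cop V := hW.mono hVW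
    set X : Finset ℤ := (UA V i).image fun a : ℕ => (a : ℤ) with hX
    have hXc : X.card = (Fam V i).card := by
      rw [hX, Finset.card_image_of_injective _ (Nat.cast_injective (R := ℤ)), card_UA hVCop i]
    have hXne : X.Nonempty := by
      rw [← Finset.card_pos, hXc, card_Fam]
      exact Finset.prod_pos fun c _ => Nat.choose_pos (hiV c)
    have hXL : (1 - ε / 2) * L ≤ Real.log X.card := by
      rw [hXc, log_card_Fam hiV]
      have h1 : ∑ c, Real.log ((V c).card.choose (i c)) =
          ∑ c, Real.log (((W c).card - 2 * tt Y c).choose (j c - tt Y c)) := by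
        apply Finset.sum_congr rfl
        intro c _
        rw [hVc]
      rw [h1]
      refine le_trans ?_ hY4
      have h2 : (T : ℝ) * Γ ≤ (θ * L + 1) * Γ := mul_le_mul_of_nonneg_right hT2 hΓ0.le
      have h3 : θ * Γ * L ≤ ε / 4 * L := mul_le_mul_of_nonneg_right hθ2 hL0
      have h4 : Γ ≤ ε / 4 * L := by
        rw [div_le_iff₀ hε] at hLΓ
        linarith
      nlinarith
    have hTog := tog hW hP hY1
    have hsub : ∀ s ⊆ Y, dil (dm (fun y : κ × ℕ => a y.1 y.2) (fun y : κ × ℕ => b y.1 y.2) Y s) X ⊆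
        A.image fun a : ℕ => (a : ℤ) := by
      intro s hs z hz
      obtain ⟨x, hx, rfl⟩ := Finset.mem_image.1 hz
      obtain ⟨v, hv, rfl⟩ := Finset.mem_image.1 hx
      obtain ⟨S, hS, rfl⟩ := Finset.mem_image.1 hv
      obtain ⟨S', hS', hvl⟩ := toggle_mem (hdec := fun a b => Classical.propDecidable (a = b))
        hP hY1 htj hs hS
      rw [Finset.mem_image]
      refine ⟨vl S', Finset.mem_image_of_mem _ hS', ?_⟩
      rw [hvl]
      simp only [dm]
      push_cast
      ring
    have hXL' : Real.log X.card ≤ L := by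
      have hd : dm (fun y : κ × ℕ => a y.1 y.2) (fun y : κ × ℕ => b y.1 y.2) Y ∅ ≠ 0 :=
        dm_ne_zero hTog (Finset.empty_subset _)
      have h1 := Finset.card_le_card (hsub ∅ (Finset.empty_subset _))
      rw [Pool.Agent.TH83.SQ.card_dil hd,
        Finset.card_image_of_injective A (Nat.cast_injective (R := ℤ))] at h1
      apply Real.log_le_log
      · exact_mod_cast hXne.card_pos
      · exact_mod_cast h1
    have hAz : (A.image fun a : ℕ => (a : ℤ)).Nonempty := hAne.image _
    by_cases hBL : Real.log B.card ≤ L / ε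
    · obtain ⟨s, hs, hs2⟩ := hC _ _ Y hTog X B hXne hB (by
        rw [div_mul_eq_mul_div, div_le_iff₀ (by positivity), hY2]
        have h1 : Real.log X.card + Real.log B.card ≤ L + L / ε := by linarith
        have h2 := mul_le_mul_of_nonneg_left h1 hθ0.le
        have h3 : θ * (L + L / ε) = (θ * L) * (1 + 1 / ε) := by ring
        have h4 : (θ * L) * (1 + 1 / ε) ≤ T * (1 + 1 / ε) :=
          mul_le_mul_of_nonneg_right hT1 (by positivity)
        linarith)
      have h1 : Real.log ((dil (dm (fun y : κ × ℕ => a y.1 y.2) (fun y : κ × ℕ => b y.1 y.2) Y s) X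
          + B).card : ℝ) ≤ Real.log (((A.image fun a : ℕ => (a : ℤ)) + B).card : ℝ) := by
        apply Real.log_le_log
        · exact_mod_cast ((hXne.image _).add hB).card_pos
        · exact_mod_cast Finset.card_le_card (Finset.add_subset_add_right (hsub s hs))
      have h3 : (1 - ε / 2) * ((1 - ε / 2) * L + Real.log B.card) ≤
          (1 - ε / 2) * (Real.log X.card + Real.log B.card) :=
        mul_le_mul_of_nonneg_left (by linarith) (by linarith)
      have h4 : (1 - ε) * (L + Real.log B.card) ≤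
          (1 - ε / 2) * ((1 - ε / 2) * L + Real.log B.card) := by nlinarith [sq_nonneg ε]
      linarith
    · push Not at hBL
      have h1 : L ≤ ε * Real.log B.card := by
        rw [div_lt_iff₀ hε] at hBL
        linarith
      have h2 : Real.log B.card ≤ Real.log (((A.image fun a : ℕ => (a : ℤ)) + B).card : ℝ) := by
        apply Real.log_le_log
        · exact_mod_cast hB.card_pos
        · exact_mod_cast Finset.card_le_card_add_left hAz
      nlinarith

end Pool.Agent.T2h42.Uni
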