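import Mathlib

/-!
Products of prescribed numbers of elements of sets of pairwise coprime squarefree integers: the
number of `k`-fold products.
-/

set_option autoImplicit false

namespace Pool.Agent.T2h42.Uni

open Finset
open scoped Classical

variable {κ : Type} [Fintype κ]

/-- all elements are squarefree, and different elements (also of different sets) are coprime -/
structure Cop (W : κ → Finset ℕ) : Prop where
  sf : ∀ c, ∀ a ∈ W c, Squarefree a
  cop : ∀ c, ∀ a ∈ W c, ∀ c', ∀ b ∈ W c', (c ≠ c' ∨ a ≠ b) → Nat.Coprime a b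

/-- the choices of `j c` elements of `W c` for every `c` -/
noncomputable def Fam (W : κ → Finset ℕ) (j : κ → ℕ) : Finset (κ → Finset ℕ) :=
  Fintype.piFinset fun c => (W c).powersetCard (j c)

/-- the product -/
noncomputable def vl (S : κ → Finset ℕ) : ℕ := ∏ c, ∏ a ∈ S c, a

/-- the set of the products -/
noncomputable def UA (W : κ → Finset ℕ) (j : κ → ℕ) : Finset ℕ := (Fam W j).image vl

theorem mem_Fam {W : κ → Finset ℕ} {j : κ → ℕ} {S : κ → Finset ℕ} :
    S ∈ Fam W j ↔ ∀ c, S c ⊆ W c ∧ (S c).card = j c := by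
  simp [Fam, Fintype.mem_piFinset, Finset.mem_powersetCard]

theorem card_Fam (W : κ → Finset ℕ) (j : κ → ℕ) :
    (Fam W j).card = ∏ c, (W c).card.choose (j c) := by
  rw [Fam, Fintype.card_piFinset]
  simp [Finset.card_powersetCard]

theorem fact_vl {W : κ → Finset ℕ} (hW : Cop W) {S : κ → Finset ℕ} (hS : ∀ c, S c ⊆ W c) {c : κ}
    {a : ℕ} (ha : a ∈ W c) {p : ℕ} (hp : p.Prime) (hpa : p ∣ a) :
    (vl S).factorization p = if a ∈ S c then a.factorization p else 0 := by
  have hne : ∀ c, ∀ b ∈ S c, b ≠ 0 := fun c b hb => (hW.sf c b (hS c hb)).ne_zero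
  have hother : ∀ c', ∀ b ∈ S c', (c ≠ c' ∨ a ≠ b) → b.factorization p = 0 := by
    intro c' b hb h
    apply Nat.factorization_eq_zero_of_not_dvd
    intro hpb
    have := hW.cop c a ha c' b (hS c' hb) h
    exact Nat.not_coprime_of_dvd_of_dvd hp.one_lt hpa hpb this
  unfold vl
  rw [Nat.factorization_prod (fun c' _ => Finset.prod_ne_zero_iff.2 fun b hb => hne c' b hb),
    Finsupp.finset_sum_apply, Finset.sum_eq_single c]
  · rw [Nat.factorization_prod (fun b hb => hne c b hb), Finsupp.finset_sum_apply]
    by_cases h : a ∈ S c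
    · rw [if_pos h, Finset.sum_eq_single a]
      · intro b hb hba
        exact hother c b hb (Or.inr (Ne.symm hba))
      · intro h'; exact absurd h h'
    · rw [if_neg h]
      apply Finset.sum_eq_zero
      intro b hb
      apply hother c b hb
      right
      rintro rfl
      exact h hb
  · intro c' _ hc
    rw [Nat.factorization_prod (fun b hb => hne c' b hb), Finsupp.finset_sum_apply]
    exact Finset.sum_eq_zero fun b hb => hother c' b hb (Or.inl (Ne.symm hc))
  · intro h; exact absurd (Finset.mem_univ c) h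

/-- the multiplicities -/
noncomputable def mm {k : ℕ} (x : Fin k → κ → Finset ℕ) (c : κ) (a : ℕ) : ℕ :=
  (univ.filter fun t => a ∈ x t c).card

/-- tuples -/
noncomputable def TF (W : κ → Finset ℕ) (j : κ → ℕ) (k : ℕ) : Finset (Fin k → κ → Finset ℕ) :=
  Fintype.piFinset fun _ => Fam W j

theorem mem_TF {W : κ → Finset ℕ} {j : κ → ℕ} {k : ℕ} {x : Fin k → κ → Finset ℕ} :
    x ∈ TF W j k ↔ ∀ t, x t ∈ Fam W j := by
  simp [TF, Fintype.mem_piFinset]

theorem card_TF (W : κ → Finset ℕ) (j : κ → ℕ) (k : ℕ) :
    (TF W j k).card = (Fam W j).card ^ k := by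
  rw [TF, Fintype.card_piFinset]
  simp

theorem sum_mm {W : κ → Finset ℕ} {j : κ → ℕ} {k : ℕ} {x : Fin k → κ → Finset ℕ}
    (hx : x ∈ TF W j k) (c : κ) : ∑ a ∈ W c, mm x c a = k * j c := by
  unfold mm
  have h1 : ∀ a, (univ.filter fun t : Fin k => a ∈ x t c).card =
      ∑ t : Fin k, if a ∈ x t c then 1 else 0 := by
    intro a
    rw [Finset.card_filter]
  simp only [h1]
  rw [Finset.sum_comm]
  have h2 : ∀ t : Fin k, ∑ a ∈ W c, (if a ∈ x t c then 1 else 0) = j c := by
    intro t
    obtain ⟨h3, h4⟩ := mem_Fam.1 (mem_TF.1 hx t) c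
    rw [← Finset.card_filter, Finset.filter_mem_eq_inter, Finset.inter_eq_right.2 h3, h4]
  rw [Finset.sum_congr rfl fun t _ => h2 t]
  simp

theorem mm_zero {W : κ → Finset ℕ} {j : κ → ℕ} {k : ℕ} {x : Fin k → κ → Finset ℕ}
    (hx : x ∈ TF W j k) {c : κ} {a : ℕ} (ha : a ∉ W c) : mm x c a = 0 := by
  unfold mm
  rw [Finset.card_eq_zero, Finset.filter_eq_empty_iff]
  intro t _ h
  exact ha ((mem_Fam.1 (mem_TF.1 hx t) c).1 h)

/-- the product determines the multiplicities -/
theorem mm_eq {W : κ → Finset ℕ} (hW : Cop W) {j : κ → ℕ} {k : ℕ} {x y : Fin k → κ → Finset ℕ}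
    (hx : x ∈ TF W j k) (hy : y ∈ TF W j k) (h : ∏ t, vl (x t) = ∏ t, vl (y t)) :
    mm x = mm y := by
  have hvne : ∀ x ∈ TF W j k, ∀ t, vl (x t) ≠ 0 := by
    intro x hx t
    unfold vl
    rw [Finset.prod_ne_zero_iff]
    intro c _
    rw [Finset.prod_ne_zero_iff]
    intro b hb
    exact (hW.sf c b ((mem_Fam.1 (mem_TF.1 hx t) c).1 hb)).ne_zero
  -- the elements `≠ 1`
  have hbig : ∀ c, ∀ a ∈ W c, a ≠ 1 → mm x c a = mm y c a := by
    intro c a ha ha1
    obtain ⟨p, hp, hpa⟩ := Nat.exists_prime_and_dvd ha1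
    have hpos : 0 < a.factorization p :=
      hp.factorization_pos_of_dvd (hW.sf c a ha).ne_zero hpa
    have key : ∀ x ∈ TF W j k, (∏ t, vl (x t)).factorization p = mm x c a * a.factorization p := by
      intro x hx
      rw [Nat.factorization_prod (fun t _ => hvne x hx t), Finsupp.finset_sum_apply]
      have h1 : ∀ t : Fin k, (vl (x t)).factorization p =
          if a ∈ x t c then a.factorization p else 0 := fun t =>
        fact_vl hW (fun c => (mem_Fam.1 (mem_TF.1 hx t) c).1) ha hp hpa
      rw [Finset.sum_congr rfl fun t _ => h1 t, ← Finset.sum_filter, Finset.sum_const,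
        smul_eq_mul]
      rfl
    have h1 := key x hx
    rw [h, key y hy] at h1
    exact (Nat.eq_of_mul_eq_mul_right hpos h1).symm
  funext c a
  by_cases ha : a ∈ W c
  · by_cases ha1 : a = 1
    · have h1 := sum_mm hx c
      have h2 := sum_mm hy c
      rw [← Finset.add_sum_erase _ _ ha] at h1 h2
      have h3 : ∑ b ∈ (W c).erase a, mm x c b = ∑ b ∈ (W c).erase a, mm y c b := by
        apply Finset.sum_congr rfl
        intro b hb
        obtain ⟨hb1, hb2⟩ := Finset.mem_erase.1 hb
        exact hbig c b hb2 (by rw [← ha1]; exact hb1)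
      omega
    · exact hbig c a ha ha1
  · rw [mm_zero hx ha, mm_zero hy ha]

theorem card_image_le' {α β γ : Type*} [DecidableEq β] [DecidableEq γ] (T : Finset α) (f : α → β) (g : α → γ)
    (h : ∀ x ∈ T, ∀ y ∈ T, f x = f y → g x = g y) : (T.image g).card ≤ (T.image f).card := by
  rcases T.eq_empty_or_nonempty with rfl | ⟨x₀, _⟩
  · simp
  haveI : Nonempty α := ⟨x₀⟩
  have h1 : ∀ b ∈ T.image g, ∃ x ∈ T, g x = b := fun b hb => Finset.mem_image.1 hb
  choose! pre hpre1 hpre2 using h1
  apply Finset.card_le_card_of_injOn fun b => f (pre b)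
  · intro b hb
    exact Finset.mem_coe.2 (Finset.mem_image_of_mem _ (hpre1 b hb))
  · intro b hb b' hb' hbb
    rw [← hpre2 b hb, ← hpre2 b' hb']
    exact h _ (hpre1 b hb) _ (hpre1 b' hb') hbb

/-- the smaller one of the numbers of the chosen and of the omitted elements -/
def dd (W : κ → Finset ℕ) (j : κ → ℕ) (c : κ) : ℕ := min (j c) ((W c).card - j c)

/-- the tuples with the same multiplicities -/
theorem fiber_card {W : κ → Finset ℕ} {j : κ → ℕ} (hj : ∀ c, j c ≤ (W c).card) {k : ℕ}
    {x : Fin k → κ → Finset ℕ} (hx : x ∈ TF W j k) :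
    ((TF W j k).filter fun y => mm y = mm x).card ≤ 2 ^ (k * (k * ∑ c, dd W j c)) := by
  -- the possible sets in the group `c`
  have hU : ∀ c, ∃ 𝒰 : Finset (Finset ℕ), 𝒰.card ≤ 2 ^ (k * dd W j c) ∧
      ∀ y ∈ TF W j k, mm y = mm x → ∀ t, y t c ∈ 𝒰 := by
    intro c
    by_cases hc : j c ≤ (W c).card - j c
    · refine ⟨((W c).filter fun a => 0 < mm x c a).powerset, ?_, ?_⟩
      · rw [Finset.card_powerset]
        apply Nat.pow_le_pow_right (by norm_num)
        have h1 : ((W c).filter fun a => 0 < mm x c a).card ≤ ∑ a ∈ W c, mm x c a := by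
          calc ((W c).filter fun a => 0 < mm x c a).card
              = ∑ a ∈ (W c).filter (fun a => 0 < mm x c a), 1 := by simp
            _ ≤ ∑ a ∈ (W c).filter (fun a => 0 < mm x c a), mm x c a := by
                apply Finset.sum_le_sum
                intro a ha
                exact (Finset.mem_filter.1 ha).2
            _ ≤ _ := Finset.sum_le_sum_of_subset (Finset.filter_subset _ _)
        rw [sum_mm hx c] at h1
        have : dd W j c = j c := min_eq_left hc
        rwa [this]
      · intro y hy hyx t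
        rw [Finset.mem_powerset]
        intro a ha
        rw [Finset.mem_filter]
        refine ⟨(mem_Fam.1 (mem_TF.1 hy t) c).1 ha, ?_⟩
        rw [← hyx]
        exact Finset.card_pos.2 ⟨t, Finset.mem_filter.2 ⟨Finset.mem_univ _, ha⟩⟩
    · push Not at hc
      refine ⟨((W c).filter fun a => mm x c a < k).powerset.image fun V => W c \ V, ?_, ?_⟩
      · refine Finset.card_image_le.trans ?_
        rw [Finset.card_powerset]
        apply Nat.pow_le_pow_right (by norm_num)
        have h1 : ((W c).filter fun a => mm x c a < k).card ≤ ∑ a ∈ W c, (k - mm x c a) := by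
          calc ((W c).filter fun a => mm x c a < k).card
              = ∑ a ∈ (W c).filter (fun a => mm x c a < k), 1 := by simp
            _ ≤ ∑ a ∈ (W c).filter (fun a => mm x c a < k), (k - mm x c a) := by
                apply Finset.sum_le_sum
                intro a ha
                have := (Finset.mem_filter.1 ha).2
                omega
            _ ≤ _ := Finset.sum_le_sum_of_subset (Finset.filter_subset _ _)
        have h2 : ∑ a ∈ W c, (k - mm x c a) + ∑ a ∈ W c, mm x c a = k * (W c).card := by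
          rw [← Finset.sum_add_distrib]
          have h3 : ∀ a ∈ W c, k - mm x c a + mm x c a = k := by
            intro a _
            have : mm x c a ≤ k := by
              unfold mm
              have := Finset.card_le_univ (univ.filter fun t : Fin k => a ∈ x t c)
              simpa using this
            omega
          rw [Finset.sum_congr rfl h3, Finset.sum_const, smul_eq_mul, mul_comm]
        rw [sum_mm hx c] at h2
        have h4 : dd W j c = (W c).card - j c := min_eq_right hc.le
        have h5 : k * ((W c).card - j c) + k * j c = k * (W c).card := by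
          rw [← mul_add, Nat.sub_add_cancel (hj c)]
        rw [h4]
        omega
      · intro y hy hyx t
        have hsub := (mem_Fam.1 (mem_TF.1 hy t) c).1
        rw [Finset.mem_image]
        refine ⟨W c \ y t c, ?_, Finset.sdiff_sdiff_eq_self hsub⟩
        rw [Finset.mem_powerset]
        intro a ha
        obtain ⟨h1, h2⟩ := Finset.mem_sdiff.1 ha
        rw [Finset.mem_filter]
        refine ⟨h1, ?_⟩
        rw [← hyx]
        have h3 : (univ.filter fun s : Fin k => a ∈ y s c) ⊂ univ := by
          rw [Finset.ssubset_univ_iff]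
          intro h
          have : t ∈ univ.filter fun s : Fin k => a ∈ y s c := by rw [h]; exact Finset.mem_univ _
          exact h2 (Finset.mem_filter.1 this).2
        have h4 := Finset.card_lt_card h3
        simpa [mm] using h4
  choose 𝒰 h𝒰1 h𝒰2 using hU
  have h1 : ((TF W j k).filter fun y => mm y = mm x) ⊆
      Fintype.piFinset fun _ : Fin k => Fintype.piFinset 𝒰 := by
    intro y hy
    obtain ⟨h1, h2⟩ := Finset.mem_filter.1 hy
    rw [Fintype.mem_piFinset]
    intro t
    rw [Fintype.mem_piFinset]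
    intro c
    exact h𝒰2 c y h1 h2 t
  calc ((TF W j k).filter fun y => mm y = mm x).card
      ≤ (Fintype.piFinset fun _ : Fin k => Fintype.piFinset 𝒰).card := Finset.card_le_card h1
    _ = (∏ c, (𝒰 c).card) ^ k := by
        rw [Fintype.card_piFinset, Fintype.card_piFinset]
        simp
    _ ≤ (∏ c, 2 ^ (k * dd W j c)) ^ k :=
        Nat.pow_le_pow_left (Finset.prod_le_prod' fun c _ => h𝒰1 c) k
    _ = 2 ^ (k * (k * ∑ c, dd W j c)) := by
        rw [Finset.prod_pow_eq_pow_sum, ← pow_mul, ← Finset.mul_sum]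
        congr 1
        ring

/-- the number of the `k`-fold products -/
theorem prods_card {W : κ → Finset ℕ} (hW : Cop W) {j : κ → ℕ} (hj : ∀ c, j c ≤ (W c).card)
    (k : ℕ) :
    (Fam W j).card ^ k ≤
      ((Fintype.piFinset fun _ : Fin k => UA W j).image fun f => ∏ i, f i).card *
        2 ^ (k * (k * ∑ c, dd W j c)) := by
  have h1 : (TF W j k).card ≤ 2 ^ (k * (k * ∑ c, dd W j c)) * ((TF W j k).image mm).card := by
    apply Finset.card_le_mul_card_image
    intro m hm
    obtain ⟨x, hx, rfl⟩ := Finset.mem_image.1 hm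
    exact fiber_card hj hx
  have h2 : ((TF W j k).image mm).card ≤ ((TF W j k).image fun x => ∏ t, vl (x t)).card :=
    card_image_le' _ _ _ fun x hx y hy h => mm_eq hW hx hy h
  have h3 : ((TF W j k).image fun x => ∏ t, vl (x t)) ⊆
      ((Fintype.piFinset fun _ : Fin k => UA W j).image fun f => ∏ i, f i) := by
    intro z hz
    obtain ⟨x, hx, rfl⟩ := Finset.mem_image.1 hz
    rw [Finset.mem_image]
    refine ⟨fun t => vl (x t), ?_, rfl⟩
    rw [Fintype.mem_piFinset]
    intro t
    exact Finset.mem_image_of_mem _ (mem_TF.1 hx t)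
  rw [← card_TF, mul_comm]
  exact h1.trans (Nat.mul_le_mul_left _ (h2.trans (Finset.card_le_card h3)))

/-- different choices have different products -/
theorem vl_inj {W : κ → Finset ℕ} (hW : Cop W) {j : κ → ℕ} {S S' : κ → Finset ℕ}
    (hS : S ∈ Fam W j) (hS' : S' ∈ Fam W j) (h : vl S = vl S') : S = S' := by
  have h1 : mm (fun _ : Fin 1 => S) = mm (fun _ : Fin 1 => S') :=
    mm_eq (j := j) hW (mem_TF.2 fun _ => hS) (mem_TF.2 fun _ => hS') (by simpa using h)
  funext c
  ext a
  have h2 := congrFun (congrFun h1 c) a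
  unfold mm at h2
  by_cases h3 : a ∈ S c <;> by_cases h4 : a ∈ S' c <;> simp_all

theorem card_UA {W : κ → Finset ℕ} (hW : Cop W) (j : κ → ℕ) :
    (UA W j).card = (Fam W j).card :=
  Finset.card_image_of_injOn fun _ hS _ hS' h => vl_inj hW hS hS' h

end Pool.Agent.T2h42.Uni
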