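import Pool.Agent.T2h42.Uni.Prod
import Pool.Agent.T2h42.Uni.Binom
import Pool.Agent.T2h42.GD.Main
import Pool.Agent.T2h42.Lat.Gen

/-!
Products of prescribed numbers of elements of sets of pairwise coprime squarefree integers: the
sum sets.
-/

set_option autoImplicit false
set_option linter.unusedSectionVars false

namespace Pool.Agent.T2h42.Uni

open Finset
open Pool.Agent.TH83.SQ (dil)
open Pool.Agent.T2h42.GD (dm Tog dilates)
open scoped Classical Pointwise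

variable {κ : Type} [Fintype κ]

theorem dm_ne_zero {ι : Type*} {x y : ι → ℕ} {V s : Finset ι} (h : Tog x y V) (hs : s ⊆ V) :
    dm x y V s ≠ 0 := by
  unfold dm
  apply mul_ne_zero
  · rw [Finset.prod_ne_zero_iff]
    intro i hi
    exact_mod_cast (h.pos (hs hi)).1.ne'
  · rw [Finset.prod_ne_zero_iff]
    intro i hi
    exact_mod_cast (h.pos (Finset.mem_sdiff.1 hi).1).2.ne'

theorem exists_enum (s : Finset ℕ) : ∃ f : ℕ → ℕ, (∀ i < s.card, f i ∈ s) ∧
    ∀ i < s.card, ∀ i' < s.card, f i = f i' → i = i' := by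
  refine ⟨fun i => if h : i < s.card then s.orderEmbOfFin rfl ⟨i, h⟩ else 0, ?_, ?_⟩
  · intro i hi
    simp only [dif_pos hi]
    exact Finset.orderEmbOfFin_mem s rfl ⟨i, hi⟩
  · intro i hi i' hi' h
    simp only [dif_pos hi, dif_pos hi'] at h
    have := (s.orderEmbOfFin rfl).injective h
    exact congrArg Fin.val this

theorem exists_pairs (s : Finset ℕ) (u : ℕ) (h : 2 * u ≤ s.card) :
    ∃ a b : ℕ → ℕ, (∀ i < u, a i ∈ s) ∧ (∀ i < u, b i ∈ s) ∧
      (∀ i < u, ∀ i' < u, a i = a i' → i = i') ∧ (∀ i < u, ∀ i' < u, b i = b i' → i = i') ∧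
      ∀ i < u, ∀ i' < u, a i ≠ b i' := by
  obtain ⟨f, hf1, hf2⟩ := exists_enum s
  refine ⟨fun i => f (2 * i), fun i => f (2 * i + 1), fun i hi => hf1 _ (by omega),
    fun i hi => hf1 _ (by omega), fun i hi i' hi' h => ?_, fun i hi i' hi' h => ?_,
    fun i hi i' hi' h => ?_⟩
  · have := hf2 _ (by omega) _ (by omega) h; omega
  · have := hf2 _ (by omega) _ (by omega) h; omega
  · have := hf2 _ (by omega) _ (by omega) h; omega

/-- disjoint pairs in each of the sets -/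
structure Pairs (W : κ → Finset ℕ) (u : κ → ℕ) (a b : κ → ℕ → ℕ) : Prop where
  ha : ∀ c, ∀ i < u c, a c i ∈ W c
  hb : ∀ c, ∀ i < u c, b c i ∈ W c
  ia : ∀ c, ∀ i < u c, ∀ i' < u c, a c i = a c i' → i = i'
  ib : ∀ c, ∀ i < u c, ∀ i' < u c, b c i = b c i' → i = i'
  ne : ∀ c, ∀ i < u c, ∀ i' < u c, a c i ≠ b c i'

theorem exists_Pairs (W : κ → Finset ℕ) (u : κ → ℕ) (hu : ∀ c, 2 * u c ≤ (W c).card) :
    ∃ a b : κ → ℕ → ℕ, Pairs W u a b := by
  choose a b h1 h2 h3 h4 h5 using fun c => exists_pairs (W c) (u c) (hu c)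
  exact ⟨a, b, h1, h2, h3, h4, h5⟩

variable {W : κ → Finset ℕ} {u : κ → ℕ} {a b : κ → ℕ → ℕ}

/-- the number of the pairs chosen in the group `c` -/
noncomputable def tt (Y : Finset (κ × ℕ)) (c : κ) : ℕ := (Y.filter fun y => y.1 = c).card

/-- the elements of the pairs -/
noncomputable def used (a b : κ → ℕ → ℕ) (Y : Finset (κ × ℕ)) (c : κ) : Finset ℕ :=
  ((Y.filter fun y => y.1 = c).image fun y => a y.1 y.2) ∪
    (Y.filter fun y => y.1 = c).image fun y => b y.1 y.2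

theorem inj_a (hP : Pairs W u a b) {Y : Finset (κ × ℕ)} (hY : ∀ y ∈ Y, y.2 < u y.1) (c : κ) :
    Set.InjOn (fun y : κ × ℕ => a y.1 y.2) (Y.filter fun y => y.1 = c) := by
  rintro ⟨c1, i⟩ h1 ⟨c2, i'⟩ h2 h
  rw [Finset.mem_coe, Finset.mem_filter] at h1 h2
  obtain ⟨h1, rfl⟩ := h1
  obtain ⟨h2, h3⟩ := h2
  simp only at h3 h
  subst h3
  rw [hP.ia c2 i (hY (c2, i) h1) i' (hY (c2, i') h2) h]

theorem inj_b (hP : Pairs W u a b) {Y : Finset (κ × ℕ)} (hY : ∀ y ∈ Y, y.2 < u y.1) (c : κ) :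
    Set.InjOn (fun y : κ × ℕ => b y.1 y.2) (Y.filter fun y => y.1 = c) := by
  rintro ⟨c1, i⟩ h1 ⟨c2, i'⟩ h2 h
  rw [Finset.mem_coe, Finset.mem_filter] at h1 h2
  obtain ⟨h1, rfl⟩ := h1
  obtain ⟨h2, h3⟩ := h2
  simp only at h3 h
  subst h3
  rw [hP.ib c2 i (hY (c2, i) h1) i' (hY (c2, i') h2) h]

theorem disj_ab (hP : Pairs W u a b) {Y Y' : Finset (κ × ℕ)} (hY : ∀ y ∈ Y, y.2 < u y.1)
    (hY' : ∀ y ∈ Y', y.2 < u y.1) (c : κ) :
    Disjoint ((Y.filter fun y => y.1 = c).image fun y => a y.1 y.2)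
      ((Y'.filter fun y => y.1 = c).image fun y => b y.1 y.2) := by
  rw [Finset.disjoint_left]
  intro z hz hz'
  obtain ⟨⟨c1, i⟩, h1, rfl⟩ := Finset.mem_image.1 hz
  obtain ⟨⟨c2, i'⟩, h2, h3⟩ := Finset.mem_image.1 hz'
  obtain ⟨h1a, h5⟩ := Finset.mem_filter.1 h1
  obtain ⟨h2a, h4⟩ := Finset.mem_filter.1 h2
  simp only at h3 h4 h5
  subst h4
  subst h5
  exact hP.ne c1 i (hY (c1, i) h1a) i' (hY' (c1, i') h2a) h3.symm

theorem used_card (hP : Pairs W u a b) {Y : Finset (κ × ℕ)} (hY : ∀ y ∈ Y, y.2 < u y.1) (c : κ) :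
    (used a b Y c).card = 2 * tt Y c := by
  unfold used tt
  rw [Finset.card_union_of_disjoint (disj_ab hP hY hY c),
    Finset.card_image_of_injOn (inj_a hP hY c), Finset.card_image_of_injOn (inj_b hP hY c)]
  ring

theorem used_sub (hP : Pairs W u a b) {Y : Finset (κ × ℕ)} (hY : ∀ y ∈ Y, y.2 < u y.1) (c : κ) :
    used a b Y c ⊆ W c := by
  unfold used
  apply Finset.union_subset
  · intro z hz
    obtain ⟨y, hy, rfl⟩ := Finset.mem_image.1 hz
    obtain ⟨h1, rfl⟩ := Finset.mem_filter.1 hy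
    exact hP.ha _ _ (hY _ h1)
  · intro z hz
    obtain ⟨y, hy, rfl⟩ := Finset.mem_image.1 hz
    obtain ⟨h1, rfl⟩ := Finset.mem_filter.1 hy
    exact hP.hb _ _ (hY _ h1)

theorem prod_fib (Y : Finset (κ × ℕ)) (f : κ × ℕ → ℕ) :
    ∏ c, ∏ y ∈ Y.filter (fun y => y.1 = c), f y = ∏ y ∈ Y, f y :=
  Finset.prod_fiberwise_of_maps_to (g := fun y : κ × ℕ => y.1) (fun _ _ => Finset.mem_univ _) f

/-- the toggled sets -/
theorem toggle_mem [hdec : DecidableEq (κ × ℕ)] (hP : Pairs W u a b) {Y : Finset (κ × ℕ)} (hY : ∀ y ∈ Y, y.2 < u y.1)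
    {j : κ → ℕ} (hj : ∀ c, tt Y c ≤ j c) {s : Finset (κ × ℕ)} (hs : s ⊆ Y) {S : κ → Finset ℕ}
    (hS : S ∈ Fam (fun c => W c \ used a b Y c) (fun c => j c - tt Y c)) :
    ∃ S' ∈ Fam W j, vl S' = vl S * ((∏ y ∈ s, a y.1 y.2) * ∏ y ∈ Y \ s, b y.1 y.2) := by
  have hYs : ∀ y ∈ s, y.2 < u y.1 := fun y hy => hY y (hs hy)
  have hYs' : ∀ y ∈ Y \ s, y.2 < u y.1 := fun y hy => hY y (Finset.mem_sdiff.1 hy).1
  set Pa : κ → Finset ℕ := fun c => (s.filter fun y => y.1 = c).image fun y => a y.1 y.2 with hPa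
  set Pb : κ → Finset ℕ := fun c => ((Y \ s).filter fun y => y.1 = c).image fun y => b y.1 y.2
    with hPb
  have hPau : ∀ c, Pa c ⊆ used a b Y c := by
    intro c
    refine Finset.Subset.trans ?_ Finset.subset_union_left
    exact Finset.image_subset_image (Finset.filter_subset_filter _ hs)
  have hPbu : ∀ c, Pb c ⊆ used a b Y c := by
    intro c
    refine Finset.Subset.trans ?_ Finset.subset_union_right
    exact Finset.image_subset_image (Finset.filter_subset_filter _ Finset.sdiff_subset)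
  have hdab : ∀ c, Disjoint (Pa c) (Pb c) := fun c => disj_ab hP hYs hYs' c
  have hS' := mem_Fam.1 hS
  have hdS : ∀ c, Disjoint (S c) (Pa c ∪ Pb c) := by
    intro c
    rw [Finset.disjoint_left]
    intro z hz hz'
    have h1 := (Finset.mem_sdiff.1 ((hS' c).1 hz)).2
    exact h1 (Finset.union_subset (hPau c) (hPbu c) hz')
  have hcab : ∀ c, (Pa c).card + (Pb c).card = tt Y c := by
    intro c
    rw [hPa, hPb]
    simp only
    rw [Finset.card_image_of_injOn (inj_a hP hYs c), Finset.card_image_of_injOn (inj_b hP hYs' c)]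
    unfold tt
    rw [← Finset.card_union_of_disjoint]
    · congr 1
      ext y
      simp only [Finset.mem_union, Finset.mem_filter, Finset.mem_sdiff]
      constructor
      · rintro (⟨h1, h2⟩ | ⟨⟨h1, _⟩, h2⟩)
        · exact ⟨hs h1, h2⟩
        · exact ⟨h1, h2⟩
      · rintro ⟨h1, h2⟩
        by_cases h : y ∈ s
        · exact Or.inl ⟨h, h2⟩
        · exact Or.inr ⟨⟨h1, h⟩, h2⟩
    · rw [Finset.disjoint_left]
      intro y hy hy'
      exact (Finset.mem_sdiff.1 (Finset.mem_filter.1 hy').1).2 (Finset.mem_filter.1 hy).1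
  refine ⟨fun c => S c ∪ (Pa c ∪ Pb c), ?_, ?_⟩
  · rw [mem_Fam]
    intro c
    constructor
    · apply Finset.union_subset ((hS' c).1.trans Finset.sdiff_subset)
      exact (Finset.union_subset (hPau c) (hPbu c)).trans (used_sub hP hY c)
    · rw [Finset.card_union_of_disjoint (hdS c), Finset.card_union_of_disjoint (hdab c), hcab,
        (hS' c).2]
      have := hj c
      omega
  · unfold vl
    have h1 : ∀ c, ∏ z ∈ S c ∪ (Pa c ∪ Pb c), z =
        (∏ z ∈ S c, z) * ((∏ y ∈ s.filter (fun y => y.1 = c), a y.1 y.2) *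
          ∏ y ∈ (Y \ s).filter (fun y => y.1 = c), b y.1 y.2) := by
      intro c
      rw [Finset.prod_union (hdS c), Finset.prod_union (hdab c), hPa, hPb]
      simp only
      rw [Finset.prod_image (inj_a hP hYs c), Finset.prod_image (inj_b hP hYs' c)]
    rw [Finset.prod_congr rfl fun c _ => h1 c, Finset.prod_mul_distrib, Finset.prod_mul_distrib,
      prod_fib s fun y => a y.1 y.2, prod_fib (Y \ s) fun y => b y.1 y.2]

theorem tog (hW : Cop W) (hP : Pairs W u a b) {Y : Finset (κ × ℕ)}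
    (hY : ∀ y ∈ Y, y.2 < u y.1) :
    Tog (fun y : κ × ℕ => a y.1 y.2) (fun y : κ × ℕ => b y.1 y.2) Y := by
  refine ⟨?_, ?_, ?_⟩
  · rintro ⟨c, i⟩ hy
    exact hP.ne c i (hY (c, i) hy) i (hY (c, i) hy)
  · rintro ⟨c, i⟩ hy
    have h1 := hP.ha c i (hY (c, i) hy)
    have h2 := hP.hb c i (hY (c, i) hy)
    simp only
    rw [Nat.squarefree_mul_iff]
    exact ⟨hW.cop _ _ h1 _ _ h2 (Or.inr (hP.ne c i (hY (c, i) hy) i (hY (c, i) hy))),
      hW.sf _ _ h1, hW.sf _ _ h2⟩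
  · rintro ⟨c, i⟩ hy ⟨c', i'⟩ hy' hne
    have h1 := hP.ha c i (hY (c, i) hy)
    have h2 := hP.hb c i (hY (c, i) hy)
    have h3 := hP.ha c' i' (hY (c', i') hy')
    have h4 := hP.hb c' i' (hY (c', i') hy')
    simp only
    have hab : ∀ z z' : ℕ, z ∈ W c → z' ∈ W c' → (c = c' → z ≠ z') → Nat.Coprime z z' := by
      intro z z' hz hz' h
      by_cases hc : c = c'
      · exact hW.cop _ _ hz _ _ hz' (Or.inr (h hc))
      · exact hW.cop _ _ hz _ _ hz' (Or.inl hc)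
    have hii : c = c' → i ≠ i' := by
      rintro rfl rfl
      exact hne rfl
    apply Nat.Coprime.mul_left <;> apply Nat.Coprime.mul_right
    · apply hab _ _ h1 h3
      rintro rfl h
      exact hii rfl (hP.ia c i (hY (c, i) hy) i' (hY (c, i') hy') h)
    · apply hab _ _ h1 h4
      rintro rfl h
      exact hP.ne c i (hY (c, i) hy) i' (hY (c, i') hy') h
    · apply hab _ _ h2 h3
      rintro rfl h
      exact hP.ne c i' (hY (c, i') hy') i (hY (c, i) hy) h.symm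
    · apply hab _ _ h2 h4
      rintro rfl h
      exact hii rfl (hP.ib c i (hY (c, i) hy) i' (hY (c, i') hy') h)

theorem Cop.mono (hW : Cop W) {V : κ → Finset ℕ} (hV : ∀ c, V c ⊆ W c) : Cop V :=
  ⟨fun c a ha => hW.sf c a (hV c ha), fun c a ha c' b hb h => hW.cop c a (hV c ha) c' b (hV c' hb) h⟩

end Pool.Agent.T2h42.Uni
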